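import Pool.Agent.H12.UCR.Stmts

/-!
Board `ucr`, row ORB: orbit measures (MP_e822af_an).
-/

set_option autoImplicit false

open MeasureTheory Filter Topology

namespace Pool.UCR

/-- The points of the orbit. -/
noncomputable def orb_y (p L a l : ℕ) : UnitAddCircle :=
  (((a : ℝ) * (p : ℝ) ^ l / ((p : ℝ) ^ L - 1) : ℝ) : UnitAddCircle)

theorem orb_succ (p L a l : ℕ) : p • orb_y p L a l = orb_y p L a (l + 1) := by
  unfold orb_y
  rw [← AddCircle.coe_nsmul]
  congr 1
  rw [nsmul_eq_mul, pow_succ]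
  ring

theorem orb_per (p L a : ℕ) (hp : 2 ≤ p) (hL : 1 ≤ L) : orb_y p L a L = orb_y p L a 0 := by
  unfold orb_y
  have h1 : (1 : ℝ) < (p : ℝ) ^ L := by
    have : (2 : ℝ) ≤ p := by exact_mod_cast hp
    exact one_lt_pow₀ (by linarith) (by omega)
  have h2 : (p : ℝ) ^ L - 1 ≠ 0 := by linarith
  have h3 : (a : ℝ) * (p : ℝ) ^ L / ((p : ℝ) ^ L - 1) =
      (a : ℝ) * (p : ℝ) ^ 0 / ((p : ℝ) ^ L - 1) + a • (1 : ℝ) := by
    rw [nsmul_eq_mul]
    field_simp
    ring
  rw [h3, AddCircle.coe_add, AddCircle.coe_nsmul, AddCircle.coe_period, smul_zero, add_zero]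

/-- The orbit measure. -/
noncomputable def orb_m (p L a : ℕ) : Measure UnitAddCircle :=
  ((L : ENNReal)⁻¹) • ∑ l ∈ Finset.range L, Measure.dirac (orb_y p L a l)

theorem orb_prob (p L a : ℕ) (hL : 1 ≤ L) : IsProbabilityMeasure (orb_m p L a) := by
  constructor
  unfold orb_m
  rw [Measure.smul_apply, Measure.finsetSum_apply]
  simp only [measure_univ, Finset.sum_const, Finset.card_range, nsmul_eq_mul, mul_one, smul_eq_mul]
  exact ENNReal.inv_mul_cancel (by exact_mod_cast (show L ≠ 0 by omega)) (ENNReal.natCast_ne_top L)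

theorem orb_map (p L a : ℕ) (hp : 2 ≤ p) (hL : 1 ≤ L) :
    (orb_m p L a).map (fun x : UnitAddCircle => p • x) = orb_m p L a := by
  have hT : Measurable (fun x : UnitAddCircle => p • x) := (continuous_nsmul p).measurable
  ext s hs
  rw [Measure.map_apply hT hs]
  unfold orb_m
  rw [Measure.smul_apply, Measure.smul_apply, Measure.finsetSum_apply, Measure.finsetSum_apply]
  congr 1
  have h1 : ∀ l, (Measure.dirac (orb_y p L a l)) ((fun x : UnitAddCircle => p • x) ⁻¹' s) =
      (Measure.dirac (orb_y p L a (l + 1))) s := by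
    intro l
    rw [Measure.dirac_apply' _ (hT hs), Measure.dirac_apply' _ hs, ← orb_succ]
    rfl
  simp only [h1]
  have h2 := Finset.sum_range_succ (fun l => (Measure.dirac (orb_y p L a l)) s) L
  have h3 := Finset.sum_range_succ' (fun l => (Measure.dirac (orb_y p L a l)) s) L
  rw [h2] at h3
  rw [orb_per p L a hp hL] at h3
  have h4 : (Measure.dirac (orb_y p L a 0)) s ≠ ⊤ := measure_ne_top _ _
  exact ((ENNReal.add_left_inj h4).1 h3).symm

theorem orb_thm : ORBS := by
  intro p L a hp hL
  have := orb_prob p L a hL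
  refine ⟨⟨⟨orb_m p L a, inferInstance⟩, orb_map p L a hp hL⟩, fun j => ?_⟩
  unfold fc S
  change ∫ x, fourier (j : ℤ) x ∂(orb_m p L a) = _
  unfold orb_m
  rw [integral_smul_measure, integral_finsetSum_measure]
  · simp only [integral_dirac]
    rw [ENNReal.toReal_inv, ENNReal.toReal_natCast]
    rw [Complex.real_smul]
    congr 1
    · push_cast; rfl
    · refine Finset.sum_congr rfl fun l _ => ?_
      unfold orb_y
      rw [fourier_coe_apply]
      congr 1
      push_cast
      ring
  · intro l _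
    exact integrable_dirac (by simp)

end Pool.UCR
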